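import Pool.Agent.H15.NDM.S1

/-!
# NDM, row ELM: elementary facts
-/

set_option autoImplicit false

namespace Pool.NDM

open Finset

theorem mem_sl (S : Finset Px) (i : ℕ) (b : List ℕ) (t : ℕ) :
    (b, t) ∈ sl S i ↔ (i :: b, t) ∈ S := by
  unfold sl
  simp only [Finset.mem_image, Finset.mem_filter, Prod.mk.injEq]
  constructor
  · rintro ⟨⟨a, t'⟩, ⟨hS, hne, hh⟩, hb, ht⟩
    cases a with
    | nil => exact absurd rfl hne
    | cons h tl =>
      simp only [List.headI_cons] at hh
      simp only [List.tail_cons] at hb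
      simp only at ht
      subst hh; subst hb; subst ht
      exact hS
  · intro h
    exact ⟨(i :: b, t), ⟨h, by simp, by simp⟩, by simp, rfl⟩

theorem sl_mono {S S' : Finset Px} (h : S ⊆ S') (i : ℕ) : sl S i ⊆ sl S' i := by
  rintro ⟨b, t⟩ hb
  rw [mem_sl] at hb ⊢
  exact h hb

theorem step_sub (k μ : ℕ) (S : Finset Px) : step k μ S ⊆ S := by
  cases k with
  | zero => unfold step; exact Finset.filter_subset _ _
  | succ k => unfold step; exact Finset.filter_subset _ _

theorem mem_step_zero (μ : ℕ) (S : Finset Px) (x : Px) :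
    x ∈ step 0 μ S ↔ x ∈ S ∧ μ ≤ (S.filter fun y => x.2 < y.2).card := by
  unfold step
  rw [Finset.mem_filter]

theorem mem_step_succ (k μ : ℕ) (S : Finset Px) (x : Px) :
    x ∈ step (k + 1) μ S ↔ x ∈ S ∧ x.1.headI <
      ((S.image fun y => y.1.headI).filter fun i =>
        (x.1.tail, x.2) ∈ step k (μ - i) (sl S i)).card := by
  conv_lhs => unfold step
  rw [Finset.mem_filter]

theorem step_mono (k : ℕ) : ∀ (μ μ' : ℕ) (S S' : Finset Px), μ' ≤ μ → S ⊆ S' →
    step k μ S ⊆ step k μ' S' := by
  induction k with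
  | zero =>
    intro μ μ' S S' hμ hS x hx
    rw [mem_step_zero] at hx ⊢
    refine ⟨hS hx.1, le_trans hμ (le_trans hx.2 (Finset.card_le_card ?_))⟩
    exact Finset.filter_subset_filter _ hS
  | succ k ih =>
    intro μ μ' S S' hμ hS x hx
    rw [mem_step_succ] at hx ⊢
    refine ⟨hS hx.1, lt_of_lt_of_le hx.2 (Finset.card_le_card ?_)⟩
    intro i hi
    rw [Finset.mem_filter] at hi ⊢
    refine ⟨Finset.image_subset_image hS hi.1, ?_⟩
    exact ih (μ - i) (μ' - i) (sl S i) (sl S' i) (Nat.sub_le_sub_right hμ i) (sl_mono hS i) hi.2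

theorem Len_sl {k : ℕ} {S : Finset Px} (h : Len (k + 1) S) (i : ℕ) : Len k (sl S i) := by
  rintro ⟨b, t⟩ hb
  rw [mem_sl] at hb
  have := h _ hb
  simpa using this

theorem Dc_sl {S : Finset Px} (h : Dc S) (i : ℕ) : Dc (sl S i) := by
  intro a a' t hf ha
  rw [mem_sl] at ha ⊢
  exact h (i :: a) (i :: a') t (List.Forall₂.cons le_rfl hf) ha

theorem Len_step {k l μ : ℕ} {S : Finset Px} (h : Len l S) : Len l (step k μ S) :=
  fun x hx => h x (step_sub k μ S hx)

theorem Dc_step (k : ℕ) : ∀ (μ : ℕ) (S : Finset Px), Len k S → Dc S → Dc (step k μ S) := by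
  induction k with
  | zero =>
    intro μ S hL hD a a' t hf ha
    have h0 : a = [] := List.length_eq_zero_iff.1 (hL _ (step_sub _ _ _ ha))
    subst h0
    cases hf
    exact ha
  | succ k ih =>
    intro μ S hL hD a a' t hf ha
    rw [mem_step_succ] at ha ⊢
    refine ⟨hD a a' t hf ha.1, ?_⟩
    cases hf with
    | nil =>
      have := hL _ ha.1
      simp at this
    | cons hj hb =>
      rename_i j' j b' b
      refine lt_of_le_of_lt ?_ (lt_of_lt_of_le ha.2 (Finset.card_le_card ?_))
      · simpa using hj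
      · intro i hi
        rw [Finset.mem_filter] at hi ⊢
        refine ⟨hi.1, ?_⟩
        exact ih (μ - i) (sl S i) (Len_sl hL i) (Dc_sl hD i) _ _ _ hb hi.2

theorem Forall2_le_refl (b : List ℕ) : List.Forall₂ (· ≤ ·) b b := by
  induction b with
  | nil => exact List.Forall₂.nil
  | cons a l ih => exact List.Forall₂.cons le_rfl ih

theorem step_nil (k : ℕ) : ∀ (S : Finset Px), Len k S → Dc S → step k 0 S = S := by
  induction k with
  | zero =>
    intro S hL hD
    ext x
    rw [mem_step_zero]
    simp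
  | succ k ih =>
    intro S hL hD
    apply Finset.Subset.antisymm (step_sub _ _ _)
    rintro ⟨a, t⟩ hx
    rw [mem_step_succ]
    refine ⟨hx, ?_⟩
    cases a with
    | nil =>
      have := hL _ hx
      simp at this
    | cons j b =>
      have hsub : Finset.range (j + 1) ⊆ ((S.image fun y => y.1.headI).filter fun i =>
          (((j :: b, t) : Px).1.tail, ((j :: b, t) : Px).2) ∈ step k (0 - i) (sl S i)) := by
        intro i hi
        rw [Finset.mem_range] at hi
        have hi2 : (i :: b, t) ∈ S :=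
          hD (j :: b) (i :: b) t (List.Forall₂.cons (by omega) (Forall2_le_refl b)) hx
        rw [Finset.mem_filter]
        refine ⟨Finset.mem_image.2 ⟨(i :: b, t), hi2, by simp⟩, ?_⟩
        rw [Nat.zero_sub, ih (sl S i) (Len_sl hL i) (Dc_sl hD i)]
        simp only [List.tail_cons]
        rw [mem_sl]
        exact hi2
      have := Finset.card_le_card hsub
      rw [Finset.card_range] at this
      simp only [List.headI_cons]
      exact lt_of_lt_of_le (Nat.lt_succ_self j) this

theorem mem_full (k : ℕ) : ∀ (δ R : ℕ) (a : List ℕ) (t : ℕ), (a, t) ∈ full k δ R ↔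
    a.length = k ∧ a.sum + δ < t ∧ t ≤ R := by
  induction k with
  | zero =>
    intro δ R a t
    unfold full
    simp only [Finset.mem_image, Finset.mem_Ioc, Prod.mk.injEq]
    constructor
    · rintro ⟨t', ⟨h1, h2⟩, h3, h4⟩
      subst h3; subst h4
      exact ⟨rfl, by simpa using h1, h2⟩
    · rintro ⟨h1, h2, h3⟩
      have h0 : a = [] := List.length_eq_zero_iff.1 h1
      subst h0
      exact ⟨t, ⟨by simpa using h2, h3⟩, rfl, rfl⟩
  | succ k ih =>
    intro δ R a t
    unfold full
    simp only [Finset.mem_biUnion, Finset.mem_image, Finset.mem_range, Prod.mk.injEq]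
    constructor
    · rintro ⟨j, hj, ⟨b, t'⟩, hb, h1, h2⟩
      rw [ih] at hb
      simp only at h1 h2
      subst h1; subst h2
      obtain ⟨h3, h4, h5⟩ := hb
      refine ⟨by simp [h3], ?_, h5⟩
      rw [List.sum_cons]
      omega
    · rintro ⟨h1, h2, h3⟩
      cases a with
      | nil => simp at h1
      | cons j b =>
        rw [List.sum_cons] at h2
        refine ⟨j, by omega, (b, t), ?_, rfl, rfl⟩
        rw [ih]
        refine ⟨by simpa using h1, by omega, h3⟩

/-- Row ELM. -/
theorem t_elm : ELMStmt :=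
  ⟨mem_sl, step_sub, fun k => step_mono k, fun k => Dc_step k, fun k => step_nil k,
    fun k => mem_full k⟩

end Pool.NDM
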