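import Pool.Agent.H49.FOS.S1
import Pool.Agent.H49.TRN.S1

/-!
# NDM: the generic `k`-rank in `n` variables is at most the dimension count plus a constant `c(n)`
(statements)
-/

set_option autoImplicit false

namespace Pool.NDM

open MvPolynomial Pool.FOS Pool.TRN

/-- Exponents `(a, t)`: `a` is the list of the sorted coordinates, the outermost first, `t` is the
layer. -/
abbrev Px := List ℕ × ℕ

/-- The slice of the outermost coordinate. -/
def sl (S : Finset Px) (i : ℕ) : Finset Px :=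
  (S.filter fun x => x.1 ≠ [] ∧ x.1.headI = i).image fun x => (x.1.tail, x.2)

/-- Removal of one point of multiplicity `μ`, dimension `k + 1`. -/
def step : ℕ → ℕ → Finset Px → Finset Px
  | 0, μ, S => S.filter fun x => μ ≤ (S.filter fun y => x.2 < y.2).card
  | k + 1, μ, S => S.filter fun x => x.1.headI <
      ((S.image fun y => y.1.headI).filter fun i =>
        (x.1.tail, x.2) ∈ step k (μ - i) (sl S i)).card

/-- `k` sorted coordinates. -/
def Len (k : ℕ) (S : Finset Px) : Prop := ∀ x ∈ S, x.1.length = k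

/-- Closed downwards in the sorted coordinates. -/
def Dc (S : Finset Px) : Prop :=
  ∀ a a' t, List.Forall₂ (· ≤ ·) a' a → (a, t) ∈ S → (a', t) ∈ S

/-- The simplex of offset `δ`. -/
def Off (δ : ℕ) (S : Finset Px) : Prop := ∀ a t, (a, t) ∈ S → a.sum + δ < t

/-- Monotone in the layer. -/
def Mon (δ : ℕ) (S : Finset Px) : Prop := ∀ a t, (a, t + 1) ∈ S → a.sum + δ < t → (a, t) ∈ S

/-- The Borel property for neighbouring coordinates. -/
def Bor (S : Finset Px) : Prop :=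
  ∀ (l r : List ℕ) (i j t : ℕ), (l ++ j :: (i + 1) :: r, t) ∈ S → (l ++ (j + 1) :: i :: r, t) ∈ S

/-- The full state: `a.sum + δ < t ≤ R`. -/
def full : ℕ → ℕ → ℕ → Finset Px
  | 0, δ, R => (Finset.Ioc δ R).image fun t => ([], t)
  | k + 1, δ, R => (Finset.range R).biUnion fun j =>
      (full k (δ + j) R).image fun x => (j :: x.1, x.2)

/-- The number of `a` in `ℕ ^ k` with `|a| < μ`. -/
def dl : ℕ → ℕ → ℕ
  | 0, μ => if μ = 0 then 0 else 1
  | k + 1, μ => ∑ i ∈ Finset.range μ, dl k (μ - i)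

/-- All coordinates are below the bounds (the innermost one has number `1`). -/
def ib (c : ℕ → ℕ) : List ℕ → Prop
  | [] => True
  | j :: b => j < c (b.length + 1) ∧ ib c b

/-- The layer `t` contains all `a` with `|a| < m`. -/
def Thick (k m : ℕ) (S : Finset Px) (t : ℕ) : Prop :=
  ∀ a : List ℕ, a.length = k → a.sum < m → (a, t) ∈ S

/-! ### one step -/

/-- ELM: elementary facts. -/
def ELMStmt : Prop :=
  (∀ (S : Finset Px) (i : ℕ) (b : List ℕ) (t : ℕ), (b, t) ∈ sl S i ↔ (i :: b, t) ∈ S) ∧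
  (∀ (k μ : ℕ) (S : Finset Px), step k μ S ⊆ S) ∧
  (∀ (k μ μ' : ℕ) (S S' : Finset Px), μ' ≤ μ → S ⊆ S' → step k μ S ⊆ step k μ' S') ∧
  (∀ (k μ : ℕ) (S : Finset Px), Len k S → Dc S → Dc (step k μ S)) ∧
  (∀ (k : ℕ) (S : Finset Px), Len k S → Dc S → step k 0 S = S) ∧
  (∀ (k δ R : ℕ) (a : List ℕ) (t : ℕ), (a, t) ∈ full k δ R ↔
    a.length = k ∧ a.sum + δ < t ∧ t ≤ R)

/-- REM: a full step. -/
def REMStmt : Prop :=
  ∀ (k μ δ l : ℕ) (S : Finset Px), Len k S → Dc S →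
    (∀ (a : List ℕ) (t : ℕ), a.length = k → a.sum < μ → a.sum + δ < t → t ≤ l → (a, t) ∈ S) →
    μ + δ ≤ l → (step k μ S).card + Nat.choose (μ + k) (k + 1) = S.card

/-- LXX: pairs. -/
def LXXStmt : Prop :=
  ∀ (k μ : ℕ) (A B : Finset Px), Len k A → Dc A → Len k B → Dc B → B ⊆ A →
    (∀ a t, (a, t + 1) ∈ B → (a, t) ∈ A) →
    ∀ a t, (a, t + 1) ∈ step k μ B → (a, t) ∈ step k (μ + 1) A

/-- LMM: monotonicity in the layer is preserved. -/
def LMMStmt : Prop :=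
  ∀ (k μ δ : ℕ) (S : Finset Px), Len k S → Dc S → Off δ S → Mon δ S → Mon δ (step k μ S)

/-- BOR: the Borel property is preserved. -/
def BORStmt : Prop :=
  ∀ (k μ : ℕ) (S : Finset Px), Len k S → Dc S → Bor S → Bor (step k μ S)

/-- AUT: the layers below evolve alone. -/
def AUTStmt : Prop :=
  ∀ (k μ l : ℕ) (S : Finset Px),
    (step k μ S).filter (fun x => l < x.2) = step k μ (S.filter fun x => l < x.2)

/-- UNT: untouched layers. -/
def UNTStmt : Prop :=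
  ∀ (k μ t : ℕ) (S : Finset Px), Len k S → Dc S →
    (∀ a, (a, t) ∈ S → a.sum < μ → ∀ t', t < t' → t' + a.sum ≤ t + μ → (a, t') ∈ S) →
    ∀ a, (a, t) ∈ S → (a, t) ∈ step k μ S

/-- LAY: the loss of a layer. -/
def LAYStmt : Prop :=
  ∀ (k μ t : ℕ) (S : Finset Px), Len k S → Dc S →
    (S.filter fun x => x.2 = t).card ≤ ((step k μ S).filter fun x => x.2 = t).card + dl k μ

/-- CLA: clearing, one more coordinate. -/
def CLAStmt : Prop :=
  ∀ (k m m₁ m₂ n c : ℕ) (A S : Finset Px), Len (k + 1) S → Dc S → m₁ + m₂ ≤ m + 1 →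
    (step k m₁)^[n] A = ∅ → (∀ j a t, (j :: a, t) ∈ S → (a, t) ∈ A ∧ j < c * m₂) →
    (step (k + 1) m)^[c * n] S = ∅

/-- BOX: clearing of a box. -/
def BOXStmt : Prop :=
  ∀ (k μ l : ℕ) (c : ℕ → ℕ) (S : Finset Px), 1 ≤ μ → Len k S → Dc S →
    (∀ a t, (a, t) ∈ S → l < t ∧ t ≤ l + c 0 * μ ∧ ib (fun i => c i * μ) a) →
    (step k μ)^[2 ^ (k * (k + 3) / 2) * ∏ i ∈ Finset.range (k + 1), c i] S = ∅

/-! ### numbers -/

/-- DLA: the size of a layer and of the full state. -/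
def DLAStmt : Prop :=
  (∀ k R t : ℕ, t ≤ R → ((full k 0 R).filter fun x => x.2 = t).card = dl k t) ∧
  (∀ k R : ℕ, (full k 0 R).card = Nat.choose (R + k) (k + 1)) ∧
  (∀ k m : ℕ, 1 ≤ m → 1 ≤ dl k m)

/-- DLB: the size of a thin layer. -/
def DLBStmt : Prop :=
  ∀ (k R c t : ℕ) (S : Finset Px), S ⊆ full (k + 1) 0 R → (∀ x ∈ S, x.2 = t) →
    (∀ x ∈ S, x.1.getLastD 0 < c) → S.card + dl (k + 1) (t - c) ≤ dl (k + 1) t

/-- DLC: growth. -/
def DLCStmt : Prop := ∀ k m p : ℕ, 1 ≤ p → Nat.choose (p - 1) k * dl k m ≤ dl k (p * m)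

/-- The number `κ` is large enough. -/
def Big (k κ : ℕ) : Prop :=
  3 ≤ κ ∧ ∀ m l : ℕ, 1 ≤ m → κ * m ≤ l →
    (2 ^ (k * (k + 3) / 2) * (l / m + 2) ^ (k - 1) + 1) * dl k m ≤ dl k (l + 1 - 2 * m)

/-- NUM: there is such a number. -/
def NUMStmt : Prop := ∀ k : ℕ, 1 ≤ k → ∃ κ, Big k κ

/-! ### the process -/

/-- The state after `s` steps. -/
def Or (k m R s : ℕ) : Finset Px := (step k m)^[s] (full k 0 R)

/-- ORB: the invariants. -/
def ORBStmt : Prop :=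
  ∀ k m R s : ℕ, Len k (Or k m R s) ∧ Dc (Or k m R s) ∧ Off 0 (Or k m R s) ∧
    Mon 0 (Or k m R s) ∧ Bor (Or k m R s) ∧ Or k m R (s + 1) = step k m (Or k m R s) ∧
    Or k m R (s + 1) ⊆ Or k m R s

/-- THN: thin layers lie in a slab. -/
def THNStmt : Prop :=
  ∀ (k m t : ℕ) (S : Finset Px), 1 ≤ k → Len k S → Dc S → Bor S → ¬ Thick k m S t →
    ∀ a, (a, t) ∈ S → a.getLastD 0 < m - 1

/-- TCK: what a thick layer does. -/
def TCKStmt : Prop :=
  ∀ k m R l s : ℕ, 1 ≤ m → Thick k m (Or k m R s) l →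
    (∀ t, m ≤ t → t ≤ l → Thick k m (Or k m R s) t) ∧
    (∀ s', s' ≤ s → Thick k m (Or k m R s') l) ∧
    (m ≤ l → (Or k m R (s + 1)).card + Nat.choose (m + k) (k + 1) = (Or k m R s).card) ∧
    (∀ a t, t + m ≤ l → a.length = k → a.sum < t → (a, t) ∈ Or k m R s ∧ (a, t) ∈ Or k m R (s + 1))

/-- DRP: from thick to thin. -/
def DRPStmt : Prop :=
  ∀ k m R l s s' : ℕ, 1 ≤ k → 1 ≤ m → 2 * m ≤ l → l ≤ R → s ≤ s' →
    Thick k m (Or k m R s) l → ¬ Thick k m (Or k m R s') (l - m) →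
    dl k (l + 1 - 2 * m) ≤ (s' - s) * dl k m

/-- FRG: the fringe is short. -/
def FRGStmt : Prop :=
  ∀ k κ m R l s : ℕ, 1 ≤ k → Big k κ → 1 ≤ m → κ * m ≤ l →
    ¬ Thick k m (Or k m R s) (l - m) → ∀ x ∈ Or k m R s, x.2 ≤ l

/-- FAT: the process ends in time. -/
def FATStmt : Prop :=
  ∀ k : ℕ, 1 ≤ k → ∃ c : ℕ, ∀ m R s : ℕ, 1 ≤ m →
    Nat.choose (R + k) (k + 1) ≤ s * Nat.choose (m + k) (k + 1) → Or k m R (s + c) = ∅

/-! ### algebra -/

/-- The exponent as a function; the layer has number `0`, the outermost coordinate number `k`. -/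
def ex : (k : ℕ) → Px → Fin (k + 1) → ℕ
  | 0, x => fun _ => x.2
  | k + 1, x => Fin.snoc (ex k (x.1.tail, x.2)) x.1.headI

/-- The value of a polynomial at an exponent. -/
noncomputable def evn {N : ℕ} (a : Fin N → ℕ) (q : MvPolynomial (Fin N) ℂ) : ℂ :=
  eval (fun i => (a i : ℂ)) q

/-- `s` points of multiplicity `m` suffice for polynomials with exponents in `D`. -/
def CovN (N m s : ℕ) (D : Finset (Fin N → ℕ)) : Prop :=
  ∃ P : Fin s → Fin N → ℂ, (∀ i j, P i j ≠ 0) ∧ ∀ c : (Fin N → ℕ) → ℂ,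
    (∀ (i : Fin s) (q : MvPolynomial (Fin N) ℂ), q.totalDegree < m →
      ∑ a ∈ D, c a * evn a q * ∏ j, P i j ^ a j = 0) → ∀ a ∈ D, c a = 0

/-- The order of the exponents. -/
def wt (B : ℕ) : ℕ → Px → ℕ
  | 0, x => x.2
  | k + 1, x => x.1.headI + B * wt B k (x.1.tail, x.2)

/-- RDN: reduction by one point. -/
def RDNStmt : Prop :=
  ∀ (N m s : ℕ) (w : Fin N → ℕ) (Z U : Finset (Fin N → ℕ)), U ⊆ Z →
    (∀ u ∈ U, ∃ q : MvPolynomial (Fin N) ℂ, q.totalDegree < m ∧ evn u q = 1 ∧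
      ∀ a ∈ Z, a ≠ u → (a ∈ U ∨ ∑ i, w i * u i ≤ ∑ i, w i * a i) → evn a q = 0) →
    CovN N m s (Z \ U) → CovN N m (s + 1) Z

/-- BIX: interpolation with binomial coefficients. -/
def BIXStmt : Prop :=
  ∀ (z : ℕ) (J : Finset ℕ) (v : ℕ → ℂ), J ⊆ Finset.range z →
    ∃ lam : ℕ → ℂ, ∀ x, z ≤ x + J.card → x < z → ∑ j ∈ J, lam j * (Nat.choose x j : ℂ) = v x

/-- ROW: one row. -/
def ROWStmt : Prop :=
  ∀ (k m B : ℕ) (S : Finset Px),
    (∀ i, ∀ u ∈ sl S i \ step k (m - i) (sl S i), ∃ q : MvPolynomial (Fin (k + 1)) ℂ,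
      q.totalDegree < m - i ∧ evn (ex k u) q = 1 ∧ ∀ a ∈ sl S i, a ≠ u →
        (a ∈ sl S i \ step k (m - i) (sl S i) ∨ wt B k u ≤ wt B k a) → evn (ex k a) q = 0) →
    Len (k + 1) S → Dc S → (∀ x ∈ S, ∀ j ∈ x.1, j < B) →
    ∀ (b : List ℕ) (t : ℕ) (v : ℕ → ℂ), b.length = k →
      (∃ j, (j :: b, t) ∈ S \ step (k + 1) m S) →
      ∃ q : MvPolynomial (Fin (k + 2)) ℂ, q.totalDegree < m ∧
        (∀ j, (j :: b, t) ∈ S \ step (k + 1) m S → evn (ex (k + 1) (j :: b, t)) q = v j) ∧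
        ∀ j' b' t', (j' :: b', t') ∈ S → (b', t') ≠ (b, t) →
          wt B k (b, t) ≤ wt B k (b', t') → evn (ex (k + 1) (j' :: b', t')) q = 0

/-- BAS: the removed exponents are the initial basis. -/
def BASStmt : Prop :=
  ∀ (k m B : ℕ) (S : Finset Px), Len k S → Dc S → (∀ x ∈ S, ∀ j ∈ x.1, j < B) →
    ∀ u ∈ S \ step k m S, ∃ q : MvPolynomial (Fin (k + 1)) ℂ,
      q.totalDegree < m ∧ evn (ex k u) q = 1 ∧ ∀ a ∈ S, a ≠ u →
        (a ∈ S \ step k m S ∨ wt B k u ≤ wt B k a) → evn (ex k a) q = 0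

/-- ITN: the process, iterated. -/
def ITNStmt : Prop :=
  ∀ (k m s : ℕ) (S : Finset Px), Len k S → Dc S → (step k m)^[s] S = ∅ →
    CovN (k + 1) m s (S.image (ex k))

/-- The simplex. -/
def Sim (N D : ℕ) : Finset (Fin N → ℕ) :=
  (Fintype.piFinset fun _ : Fin N => Finset.range (D + 1)).filter fun a => ∑ i, a i ≤ D

/-- SHF: the layers in the usual order. -/
def SHFStmt : Prop :=
  ∀ k m s D : ℕ, CovN (k + 1) m s ((full k 0 (D + 1)).image (ex k)) →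
    CovN (k + 1) m s (Sim (k + 1) D)

/-- DFN: the conditions at a point. -/
def DFNStmt : Prop :=
  ∀ (N m : ℕ) (P : Fin N → ℂ) (A : MvPolynomial (Fin N) ℂ), A ∈ mI P ^ m →
    ∀ q : MvPolynomial (Fin N) ℂ, q.totalDegree < m →
      ∑ a ∈ A.support, coeff a A * eval (fun i => (a i : ℂ)) q * ∏ i, P i ^ a i = 0

/-- VNN: the vanishing theorem. -/
def VNNStmt : Prop :=
  ∀ N m s D : ℕ, CovN N m s (Sim N D) → ∃ P : Fin s → Fin N → ℂ,
    ∀ A : MvPolynomial (Fin N) ℂ, A.totalDegree ≤ D → (∀ i, A ∈ mI (P i) ^ m) → A = 0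

/-- GEN: the generic `k`-rank is at most the dimension count plus a constant. -/
def GENStmt : Prop :=
  ∀ n : ℕ, 3 ≤ n → ∃ c : ℕ, ∀ k d s : ℕ, 1 ≤ k → 1 ≤ d →
    Nat.choose (k * d + (n - 1)) (n - 1) ≤ s * Nat.choose (d + (n - 1)) (n - 1) →
    GenLe n k d (s + c)

end Pool.NDM
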